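import Mathlib

/-!
# Closed orthogonal systems for which the expansion of a prescribed function lives off a
prescribed null set
-/

set_option autoImplicit false
set_option linter.unusedVariables false
set_option linter.unusedSectionVars false

namespace Pool.Agent.Results.MP_ae49d3_an.PrescribedFunction

open MeasureTheory Filter Topology Set

/-! ### the abstract construction -/

section abs

variable {C H : Type} [NormedAddCommGroup C] [NormedSpace ℝ C]
  [NormedAddCommGroup H] [InnerProductSpace ℝ H] (T : C →L[ℝ] H)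

/-- the projection on the span of the first vectors of an orthogonal family -/
noncomputable def ps (φ : ℕ → C) (f : C) (N : ℕ) : C :=
  ∑ i ∈ Finset.range N, (inner ℝ (T f) (T (φ i)) / inner ℝ (T (φ i)) (T (φ i))) • φ i

/-- the first `n` vectors are nonzero, orthogonal, and the expansion of `f` is in `W` -/
structure G (W : Submodule ℝ C) (f : C) (φ : ℕ → C) (n : ℕ) : Prop where
  ne : ∀ i < n, φ i ≠ 0
  orth : ∀ i < n, ∀ j < n, i ≠ j → inner ℝ (T (φ i)) (T (φ j)) = 0
  mem : ∀ i < n, (inner ℝ (T f) (T (φ i)) / inner ℝ (T (φ i)) (T (φ i))) • φ i ∈ W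

variable {T}

theorem inner_self_ne (hT : Function.Injective T) {x : C} (hx : x ≠ 0) :
    inner ℝ (T x) (T x) ≠ 0 := by
  intro h
  rw [inner_self_eq_zero] at h
  exact hx (hT (by rw [h, map_zero]))

theorem ps_mem {W : Submodule ℝ C} {f : C} {φ : ℕ → C} {n : ℕ} (h : G T W f φ n) :
    ps T φ f n ∈ W := by
  unfold ps
  exact Submodule.sum_mem _ fun i hi => h.mem i (Finset.mem_range.1 hi)

/-- orthogonality of the remainder -/
theorem ps_orth (hT : Function.Injective T) {W : Submodule ℝ C} {f : C} {φ : ℕ → C} {n : ℕ}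
    (h : G T W f φ n) (x : C) (j : ℕ) (hj : j < n) :
    inner ℝ (T (x - ps T φ x n)) (T (φ j)) = 0 := by
  have h1 : inner ℝ (T (ps T φ x n)) (T (φ j)) = inner ℝ (T x) (T (φ j)) := by
    unfold ps
    rw [map_sum, sum_inner, Finset.sum_eq_single j]
    · rw [map_smul, real_inner_smul_left]
      exact div_mul_cancel₀ _ (inner_self_ne hT (h.ne j hj))
    · intro i hi hij
      rw [map_smul, real_inner_smul_left, h.orth i (Finset.mem_range.1 hi) j hj hij, mul_zero]
    · intro h2
      exact absurd (Finset.mem_range.2 hj) h2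
  rw [map_sub, inner_sub_left, h1, sub_self]

/-- dense subspaces have dense intersection with orthogonal complements of finite families -/
theorem dense_orth {W : Submodule ℝ C} (φ : ℕ → C) (n : ℕ) : ∀ v : H,
    v ∈ closure (T '' (W : Set C)) → (∀ i < n, inner ℝ v (T (φ i)) = 0) →
      v ∈ closure (T '' {w : C | w ∈ W ∧ ∀ i < n, inner ℝ (T w) (T (φ i)) = 0}) := by
  induction n with
  | zero =>
    intro v hW _
    have h1 : {w : C | w ∈ W ∧ ∀ i < 0, inner ℝ (T w) (T (φ i)) = 0} = (W : Set C) := by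
      ext w
      simp
    rw [h1]
    exact hW
  | succ n ih =>
    intro v hW hv
    have h1 := ih v hW fun i hi => hv i (by omega)
    by_cases h : ∀ w ∈ {w : C | w ∈ W ∧ ∀ i < n, inner ℝ (T w) (T (φ i)) = 0},
        inner ℝ (T w) (T (φ n)) = 0
    · refine closure_mono (image_mono ?_) h1
      rintro w hw
      refine ⟨hw.1, fun i hi => ?_⟩
      rcases Nat.lt_succ_iff_lt_or_eq.1 hi with h2 | h2
      · exact hw.2 i h2
      · rw [h2]; exact h w hw
    · push Not at h
      obtain ⟨w0, hw0, hc⟩ := h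
      set c := inner ℝ (T w0) (T (φ n)) with hcdef
      have hcont : Continuous fun u : H => u - (inner ℝ u (T (φ n)) / c) • T w0 := by fun_prop
      have h2 := map_mem_closure (t := T '' {w : C | w ∈ W ∧ ∀ i < n + 1,
        inner ℝ (T w) (T (φ i)) = 0}) hcont h1 (by
        rintro _ ⟨w, hw, rfl⟩
        refine ⟨w - (inner ℝ (T w) (T (φ n)) / c) • w0, ⟨?_, fun i hi => ?_⟩, by
          rw [map_sub, map_smul]⟩
        · exact W.sub_mem hw.1 (W.smul_mem _ hw0.1)
        · rw [map_sub, map_smul, inner_sub_left, real_inner_smul_left]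
          rcases Nat.lt_succ_iff_lt_or_eq.1 hi with h3 | h3
          · rw [hw.2 i h3, hw0.2 i h3, mul_zero, sub_zero]
          · rw [h3, ← hcdef, div_mul_cancel₀ _ hc, sub_self])
      rw [hv n (Nat.lt_succ_self n), zero_div, zero_smul, sub_zero] at h2
      exact h2

/-- the main point: an element of a subspace on a sphere -/
theorem exists_q_pos (W : Submodule ℝ C) (f g k : H) (ha : 0 < inner ℝ f g)
    (hfk : inner ℝ f k = 0) (hkg : inner ℝ k g ≠ 0)
    (hcl : ∀ x y : ℝ, x • f + y • k ∈ closure (T '' (W : Set C))) :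
    ∃ q ∈ W, inner ℝ (f - T q) g = 0 ∧ inner ℝ (f - T q) (T q) = 0 := by
  set a : ℝ := inner ℝ f g with hadef
  have hf0 : f ≠ 0 := by
    rintro rfl
    rw [hadef, inner_zero_left] at ha
    exact lt_irrefl _ ha
  have hff : 0 < inner ℝ f f := real_inner_self_pos.2 hf0
  let Φ : H → ℝ := fun d => inner ℝ f d * inner ℝ d g - a * inner ℝ d d
  have hΦ : Continuous Φ := by
    unfold Φ
    fun_prop
  have hk0 : k ≠ 0 := by
    rintro rfl
    rw [inner_zero_left] at hkg
    exact hkg rfl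
  have hkk : 0 < inner ℝ k k := real_inner_self_pos.2 hk0
  have hneg : Φ k < 0 := by
    simp only [Φ, hfk, zero_mul, zero_sub]
    have := mul_pos ha hkk
    linarith
  -- a small perturbation of `f`
  let ε : ℝ := inner ℝ f f * inner ℝ k g / (2 * a * inner ℝ k k)
  have hpos : 0 < Φ (f + ε • k) := by
    have e1 : inner ℝ f (f + ε • k) = inner ℝ f f := by
      rw [inner_add_right, real_inner_smul_right, hfk, mul_zero, add_zero]
    have e2 : inner ℝ (f + ε • k) g = a + ε * inner ℝ k g := by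
      rw [inner_add_left, real_inner_smul_left]
    have e3 : inner ℝ (f + ε • k) (f + ε • k) = inner ℝ f f + ε ^ 2 * inner ℝ k k := by
      rw [inner_add_left, e1, inner_add_right, real_inner_smul_left, real_inner_smul_left,
        real_inner_smul_right, real_inner_comm f k, hfk]
      ring
    simp only [Φ, e1, e2, e3]
    have e5 : inner ℝ f f * (a + ε * inner ℝ k g) - a * (inner ℝ f f + ε ^ 2 * inner ℝ k k) =
        (inner ℝ f f * inner ℝ k g) ^ 2 / (4 * a * inner ℝ k k) := by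
      simp only [ε]
      field_simp
      ring
    rw [e5]
    have h1 : inner ℝ f f * inner ℝ k g ≠ 0 := mul_ne_zero hff.ne' hkg
    positivity
  have hkcl : k ∈ closure (T '' (W : Set C)) := by
    have h1 := hcl 0 1
    rwa [zero_smul, zero_add, one_smul] at h1
  have hfkcl : f + ε • k ∈ closure (T '' (W : Set C)) := by
    have h1 := hcl 1 ε
    rwa [one_smul] at h1
  obtain ⟨_, hw2, ⟨w2, hw2W, rfl⟩⟩ := mem_closure_iff.1 hkcl
    {d | Φ d < 0} (isOpen_lt hΦ continuous_const) hneg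
  obtain ⟨_, hw1, ⟨w1, hw1W, rfl⟩⟩ := mem_closure_iff.1 hfkcl
    {d | 0 < Φ d} (isOpen_lt continuous_const hΦ) hpos
  simp only [Set.mem_ofPred_eq] at hw1 hw2
  -- a zero of the quadratic form
  let β : ℝ := inner ℝ f (T w1) * inner ℝ (T w2) g + inner ℝ f (T w2) * inner ℝ (T w1) g -
    2 * a * inner ℝ (T w1) (T w2)
  have hquad : ∀ t : ℝ, Φ (T (w1 + t • w2)) = Φ (T w2) * (t * t) + β * t + Φ (T w1) := by
    intro t
    simp only [Φ, β, map_add, map_smul, inner_add_left, inner_add_right, real_inner_smul_left,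
      real_inner_smul_right, real_inner_comm (T w1) (T w2)]
    ring
  obtain ⟨t, ht⟩ := exists_quadratic_eq_zero hw2.ne (b := β) (c := Φ (T w1))
    ⟨Real.sqrt (discrim (Φ (T w2)) β (Φ (T w1))), by
      rw [Real.mul_self_sqrt]
      unfold discrim
      nlinarith [sq_nonneg β, mul_pos (neg_pos.2 hw2) hw1]⟩
  set d : C := w1 + t • w2 with hd
  have hΦd : Φ (T d) = 0 := by rw [hd, hquad, ht]
  have hd0 : T d ≠ 0 := by
    intro h
    have h1 : T w1 = (-t) • T w2 := by
      rw [hd, map_add, map_smul] at h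
      rw [neg_smul]
      exact eq_neg_of_add_eq_zero_left h
    have h2 : Φ (T w1) = t ^ 2 * Φ (T w2) := by
      rw [h1]
      simp only [Φ, real_inner_smul_left, real_inner_smul_right]
      ring
    have h3 : t ^ 2 * Φ (T w2) ≤ 0 := mul_nonpos_of_nonneg_of_nonpos (sq_nonneg t) hw2.le
    linarith
  have hdd : inner ℝ (T d) (T d) ≠ 0 := (real_inner_self_pos.2 hd0).ne'
  simp only [Φ] at hΦd
  refine ⟨(inner ℝ f (T d) / inner ℝ (T d) (T d)) • d,
    W.smul_mem _ (W.add_mem hw1W (W.smul_mem _ hw2W)), ?_, ?_⟩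
  · rw [map_smul, inner_sub_left, real_inner_smul_left, ← hadef]
    field_simp
    linarith
  · rw [map_smul, inner_sub_left, real_inner_smul_left, real_inner_smul_right,
      real_inner_smul_right]
    field_simp
    ring

theorem exists_q (W : Submodule ℝ C) (f g k : H) (ha : inner ℝ f g ≠ 0)
    (hfk : inner ℝ f k = 0) (hkg : inner ℝ k g ≠ 0)
    (hcl : ∀ x y : ℝ, x • f + y • k ∈ closure (T '' (W : Set C))) :
    ∃ q ∈ W, inner ℝ (f - T q) g = 0 ∧ inner ℝ (f - T q) (T q) = 0 := by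
  rcases lt_or_gt_of_ne ha with h | h
  · obtain ⟨q, hq, h1, h2⟩ := exists_q_pos W f (-g) k (by rw [inner_neg_right]; linarith) hfk
      (by rw [inner_neg_right]; exact neg_ne_zero.2 hkg) hcl
    exact ⟨q, hq, by rw [inner_neg_right] at h1; linarith, h2⟩
  · exact exists_q_pos W f g k h hfk hkg hcl

/-- adding a vector -/
theorem extend {W : Submodule ℝ C} {f : C} {φ : ℕ → C} {n : ℕ} (h : G T W f φ n) (x : C)
    (hx : x ≠ 0) (ho : ∀ i < n, inner ℝ (T x) (T (φ i)) = 0)
    (hm : (inner ℝ (T f) (T x) / inner ℝ (T x) (T x)) • x ∈ W) :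
    G T W f (Function.update φ n x) (n + 1) := by
  have h1 : ∀ i < n, Function.update φ n x i = φ i := fun i hi =>
    Function.update_of_ne hi.ne _ _
  have h2 : Function.update φ n x n = x := Function.update_self _ _ _
  refine ⟨fun i hi => ?_, fun i hi j hj hij => ?_, fun i hi => ?_⟩
  · rcases Nat.lt_succ_iff_lt_or_eq.1 hi with h3 | h3
    · rw [h1 i h3]; exact h.ne i h3
    · rw [h3, h2]; exact hx
  · rcases Nat.lt_succ_iff_lt_or_eq.1 hi with h3 | h3 <;>
      rcases Nat.lt_succ_iff_lt_or_eq.1 hj with h4 | h4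
    · rw [h1 i h3, h1 j h4]; exact h.orth i h3 j h4 hij
    · rw [h4, h2, h1 i h3, real_inner_comm]; exact ho i h3
    · rw [h3, h2, h1 j h4]; exact ho j h4
    · omega
  · rcases Nat.lt_succ_iff_lt_or_eq.1 hi with h3 | h3
    · rw [h1 i h3]; exact h.mem i h3
    · rw [h3, h2]; exact hm

/-- the choice of a generic vector -/
theorem exists_generic (l l' : C →L[ℝ] ℝ) (hl : l ≠ 0) (hl' : l' ≠ 0) (t : C) (ε : ℝ)
    (hε : 0 < ε) : ∃ g, ‖g - t‖ < ε ∧ l' g ≠ 0 ∧ l g ≠ 0 := by
  have hD : ∀ l : C →L[ℝ] ℝ, l ≠ 0 → Dense {x | l x ≠ 0} := by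
    intro l hl
    have h2 : {x | l x ≠ 0} = ((LinearMap.ker (l : C →ₗ[ℝ] ℝ) : Submodule ℝ C) : Set C)ᶜ := by
      ext x
      simp
    rw [h2, ← interior_eq_empty_iff_dense_compl]
    by_contra h
    have h1 := Submodule.eq_top_of_nonempty_interior' _ (Set.nonempty_iff_ne_empty.2 h)
    apply hl
    ext x
    have : x ∈ LinearMap.ker (l : C →ₗ[ℝ] ℝ) := by rw [h1]; trivial
    simpa using this
  have hO : IsOpen {x | l' x ≠ 0} := isOpen_ne_fun l'.continuous continuous_const
  have h1 := (hD l' hl').inter_of_isOpen_left (hD l hl) hO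
  obtain ⟨g, hg, hgt⟩ := Metric.dense_iff.1 h1 t ε hε
  refine ⟨g, ?_, hgt.1, hgt.2⟩
  rw [← dist_eq_norm]
  exact Metric.mem_ball.1 hg

theorem step (hT : Function.Injective T) {W : Submodule ℝ C} (hfd : ¬ FiniteDimensional ℝ W)
    {f : C} (hW : T f ∈ closure (T '' (W : Set C))) (hf : f ∉ W) {φ : ℕ → C} {n : ℕ}
    (h : G T W f φ n) (t : C) (ε : ℝ) (hε : 0 < ε) :
    ∃ (ψ : ℕ → C) (m : ℕ), n < m ∧ (∀ i < n, ψ i = φ i) ∧ G T W f ψ m ∧
      ∃ g ∈ Submodule.span ℝ (ψ '' {i | i < m}), ‖g - t‖ < ε := by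
  classical
  set f' : C := f - ps T φ f n with hf'
  have hf'0 : f' ≠ 0 := by
    intro h0
    apply hf
    rw [sub_eq_zero.1 h0]
    exact ps_mem h
  let l : C →L[ℝ] ℝ := (innerSL ℝ (T f')).comp T
  have hl : l ≠ 0 := by
    intro h0
    have h1 : l f' = 0 := by rw [h0]; rfl
    exact inner_self_ne hT hf'0 h1
  -- a vector of `W` orthogonal to everything
  obtain ⟨k, hkW, hk0, hkφ, hkf⟩ : ∃ k ∈ W, k ≠ 0 ∧ (∀ i < n, inner ℝ (T k) (T (φ i)) = 0) ∧
      inner ℝ (T k) (T f') = 0 := by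
    by_contra hcon
    push Not at hcon
    apply hfd
    let L : W →ₗ[ℝ] (Fin n → ℝ) × ℝ :=
      { toFun := fun w => (fun i => inner ℝ (T w) (T (φ i)), inner ℝ (T w) (T f'))
        map_add' := fun x y => by
          simp only [Submodule.coe_add, map_add, inner_add_left]
          rfl
        map_smul' := fun c x => by
          simp only [Submodule.coe_smul, map_smul, real_inner_smul_left, RingHom.id_apply]
          rfl }
    have hL : Function.Injective L := by
      rw [← LinearMap.ker_eq_bot, LinearMap.ker_eq_bot']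
      intro w hw
      by_contra hw0
      have h1 : (w : C) ≠ 0 := fun h0 => hw0 (Subtype.ext h0)
      have h2 := congrArg Prod.fst hw
      have h3 := congrArg Prod.snd hw
      exact hcon w w.2 h1 (fun i hi => congrFun h2 ⟨i, hi⟩) h3
    exact Module.Finite.of_injective L hL
  let l' : C →L[ℝ] ℝ := (innerSL ℝ (T k)).comp T
  have hl' : l' ≠ 0 := by
    intro h0
    have h1 : l' k = 0 := by rw [h0]; rfl
    exact inner_self_ne hT hk0 h1
  obtain ⟨g, hgt, hgl', hgl⟩ := exists_generic l l' hl hl' t ε hε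
  have hps : ∀ x, ps T φ x n ∈ Submodule.span ℝ (φ '' {i | i < n}) := by
    intro x
    unfold ps
    exact Submodule.sum_mem _ fun i hi => Submodule.smul_mem _ _
      (Submodule.subset_span ⟨i, Finset.mem_range.1 hi, rfl⟩)
  set g' : C := g - ps T φ g n with hg'
  have hfo : ∀ i < n, inner ℝ (T f') (T (φ i)) = 0 := fun i hi => ps_orth hT h f i hi
  have hgo : ∀ i < n, inner ℝ (T g') (T (φ i)) = 0 := fun i hi => ps_orth hT h g i hi
  have ha : inner ℝ (T f') (T g') ≠ 0 := by
    have h1 : inner ℝ (T f') (T g') = inner ℝ (T f') (T g) := by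
      rw [hg', map_sub T g, inner_sub_right]
      have h2 : inner ℝ (T f') (T (ps T φ g n)) = 0 := by
        unfold ps
        rw [map_sum, inner_sum]
        refine Finset.sum_eq_zero fun i hi => ?_
        rw [map_smul, real_inner_smul_right, hfo i (Finset.mem_range.1 hi), mul_zero]
      rw [h2, sub_zero]
    rw [h1]
    exact hgl
  have hkg : inner ℝ (T k) (T g') ≠ 0 := by
    have h1 : inner ℝ (T k) (T g') = inner ℝ (T k) (T g) := by
      rw [hg', map_sub T g, inner_sub_right]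
      have h2 : inner ℝ (T k) (T (ps T φ g n)) = 0 := by
        unfold ps
        rw [map_sum, inner_sum]
        refine Finset.sum_eq_zero fun i hi => ?_
        rw [map_smul, real_inner_smul_right, hkφ i (Finset.mem_range.1 hi), mul_zero]
      rw [h2, sub_zero]
    rw [h1]
    exact hgl'
  -- the subspace of `W` orthogonal to the first vectors
  let W' : Submodule ℝ C :=
    { carrier := {w : C | w ∈ W ∧ ∀ i < n, inner ℝ (T w) (T (φ i)) = 0}
      add_mem' := fun {x y} hx hy => ⟨W.add_mem hx.1 hy.1, fun i hi => by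
        rw [map_add, inner_add_left, hx.2 i hi, hy.2 i hi, add_zero]⟩
      zero_mem' := ⟨W.zero_mem, fun i hi => by rw [map_zero, inner_zero_left]⟩
      smul_mem' := fun c x hx => ⟨W.smul_mem c hx.1, fun i hi => by
        rw [map_smul, real_inner_smul_left, hx.2 i hi, mul_zero]⟩ }
  have hWm : ∀ x ∈ closure (T '' (W : Set C)), ∀ (r : ℝ) (w : C), w ∈ W →
      r • x + T w ∈ closure (T '' (W : Set C)) := by
    intro x hx r w hw
    refine map_mem_closure (f := fun u : H => r • u + T w) (by fun_prop) hx ?_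
    rintro _ ⟨u, hu, rfl⟩
    exact ⟨r • u + w, W.add_mem (W.smul_mem r hu) hw, by rw [map_add, map_smul]⟩
  obtain ⟨q, hqW, hq1, hq2⟩ := exists_q W' (T f') (T g') (T k) ha
    (by rw [real_inner_comm]; exact hkf) hkg (fun x y =>
    dense_orth φ n _ (by
      have h1 := hWm (T f) hW x (y • k - x • ps T φ f n)
        (W.sub_mem (W.smul_mem _ hkW) (W.smul_mem _ (ps_mem h)))
      have h2 : x • T f' + y • T k = x • T f + T (y • k - x • ps T φ f n) := by
        rw [hf', map_sub T f, map_sub T (y • k), map_smul, map_smul, smul_sub]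
        abel
      rw [h2]
      exact h1) fun i hi => by
      rw [inner_add_left, real_inner_smul_left, real_inner_smul_left, hfo i hi, hkφ i hi]
      ring)
  have hqg : inner ℝ (T q) (T g') ≠ 0 := by
    rw [inner_sub_left, sub_eq_zero] at hq1
    rw [← hq1]
    exact ha
  have hq0 : q ≠ 0 := by
    rintro rfl
    rw [map_zero, inner_zero_left] at hqg
    exact hqg rfl
  have hqq : inner ℝ (T q) (T q) ≠ 0 := inner_self_ne hT hq0
  have hff' : ∀ x : C, (∀ i < n, inner ℝ (T x) (T (φ i)) = 0) →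
      inner ℝ (T f) (T x) = inner ℝ (T f') (T x) := by
    intro x hx
    rw [hf', map_sub, inner_sub_left]
    have h2 : inner ℝ (T (ps T φ f n)) (T x) = 0 := by
      unfold ps
      rw [map_sum, sum_inner]
      refine Finset.sum_eq_zero fun i hi => ?_
      have h5 : inner ℝ (T (φ i)) (T x) = 0 := by
        rw [real_inner_comm]
        exact hx i (Finset.mem_range.1 hi)
      rw [map_smul, real_inner_smul_left, h5, mul_zero]
    rw [h2, sub_zero]
  have hfq : inner ℝ (T f) (T q) = inner ℝ (T q) (T q) := by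
    rw [hff' q hqW.2]
    rw [inner_sub_left, sub_eq_zero] at hq2
    exact hq2
  set c : ℝ := inner ℝ (T g') (T q) / inner ℝ (T q) (T q) with hc
  set p : C := g' - c • q with hp
  have hpo : ∀ i < n, inner ℝ (T p) (T (φ i)) = 0 := by
    intro i hi
    rw [hp, map_sub T g', map_smul, inner_sub_left, real_inner_smul_left, hgo i hi, hqW.2 i hi,
      mul_zero, sub_zero]
  have hpq : inner ℝ (T q) (T p) = 0 := by
    rw [hp, map_sub T g', map_smul, inner_sub_right, real_inner_smul_right, hc,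
      div_mul_cancel₀ _ hqq, real_inner_comm, sub_self]
  have hfp : inner ℝ (T f) (T p) = 0 := by
    rw [hff' p hpo]
    have h1 : inner ℝ (T f' - T q) (T p) = 0 := by
      rw [hp, map_sub T g', map_smul, inner_sub_right, real_inner_smul_right, hq1, hq2, mul_zero,
        sub_zero]
    rw [inner_sub_left, hpq, sub_zero] at h1
    exact h1
  have hgdec : g = ps T φ g n + (p + c • q) := by
    rw [hp, sub_add_cancel, hg', add_sub_cancel]
  have hqm : (inner ℝ (T f) (T q) / inner ℝ (T q) (T q)) • q ∈ W := W.smul_mem _ hqW.1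
  by_cases hp0 : p = 0
  · -- one new vector
    refine ⟨Function.update φ n q, n + 1, Nat.lt_succ_self n, fun i hi =>
      Function.update_of_ne hi.ne _ _, extend h q hq0 hqW.2 hqm, g, ?_, hgt⟩
    have hsub : Submodule.span ℝ (φ '' {i | i < n}) ≤
        Submodule.span ℝ (Function.update φ n q '' {i | i < n + 1}) := by
      apply Submodule.span_mono
      rintro _ ⟨i, hi, rfl⟩
      exact ⟨i, Nat.lt_succ_of_lt hi, Function.update_of_ne (Nat.ne_of_lt hi) _ _⟩
    have hqs : q ∈ Submodule.span ℝ (Function.update φ n q '' {i | i < n + 1}) :=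
      Submodule.subset_span ⟨n, Nat.lt_succ_self n, Function.update_self _ _ _⟩
    rw [hgdec, hp0, zero_add]
    exact Submodule.add_mem _ (hsub (hps g)) (Submodule.smul_mem _ _ hqs)
  · -- two new vectors
    have h1 : G T W f (Function.update φ n p) (n + 1) := by
      refine extend h p hp0 hpo ?_
      rw [hfp, zero_div, zero_smul]
      exact W.zero_mem
    have h2 : G T W f (Function.update (Function.update φ n p) (n + 1) q) (n + 1 + 1) := by
      refine extend h1 q hq0 (fun i hi => ?_) hqm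
      rcases Nat.lt_succ_iff_lt_or_eq.1 hi with h3 | h3
      · rw [Function.update_of_ne h3.ne]; exact hqW.2 i h3
      · rw [h3, Function.update_self]; exact hpq
    refine ⟨_, n + 1 + 1, by omega, fun i hi => ?_, h2, g, ?_, hgt⟩
    · rw [Function.update_of_ne (by omega), Function.update_of_ne (by omega)]
    · have hsub : Submodule.span ℝ (φ '' {i | i < n}) ≤ Submodule.span ℝ
          (Function.update (Function.update φ n p) (n + 1) q '' {i | i < n + 1 + 1}) := by
        apply Submodule.span_mono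
        rintro _ ⟨i, hi, rfl⟩
        have hi' : i < n := hi
        refine ⟨i, (by omega : i < n + 1 + 1), ?_⟩
        rw [Function.update_of_ne (by omega), Function.update_of_ne (by omega)]
      have hqs : q ∈ Submodule.span ℝ
          (Function.update (Function.update φ n p) (n + 1) q '' {i | i < n + 1 + 1}) :=
        Submodule.subset_span ⟨n + 1, (by omega : n + 1 < n + 1 + 1), Function.update_self _ _ _⟩
      have hpm : p ∈ Submodule.span ℝ
          (Function.update (Function.update φ n p) (n + 1) q '' {i | i < n + 1 + 1}) :=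
        Submodule.subset_span ⟨n, (by omega : n < n + 1 + 1), by
          rw [Function.update_of_ne (by omega), Function.update_self]⟩
      rw [hgdec]
      exact Submodule.add_mem _ (hsub (hps g)) (Submodule.add_mem _ hpm (Submodule.smul_mem _ _ hqs))

theorem main_abs [TopologicalSpace.SeparableSpace C] (hT : Function.Injective T)
    {W : Submodule ℝ C} {f : C} (hW : T f ∈ closure (T '' (W : Set C))) (hf : f ∉ W) :
    ∃ φ : ℕ → C, (∀ n, φ n ≠ 0) ∧ (∀ m n, m ≠ n → inner ℝ (T (φ m)) (T (φ n)) = 0) ∧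
      (∀ n, (inner ℝ (T f) (T (φ n)) / inner ℝ (T (φ n)) (T (φ n))) • φ n ∈ W) ∧
      Dense (Submodule.span ℝ (range φ) : Set C) := by
  classical
  -- the subspace is infinite-dimensional
  have hfd : ¬ FiniteDimensional ℝ W := by
    intro hfd
    have h1 : IsClosed ((W.map (T : C →ₗ[ℝ] H) : Submodule ℝ H) : Set H) :=
      Submodule.closed_of_finiteDimensional _
    have h2 := hW
    have h3 : (T '' (W : Set C)) = ((W.map (T : C →ₗ[ℝ] H) : Submodule ℝ H) : Set H) := by
      rw [Submodule.map_coe]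
      rfl
    rw [h3, h1.closure_eq] at h2
    obtain ⟨w, hw, hwf⟩ := h2
    exact hf (by rwa [← hT hwf])
  let D : ℕ → C := TopologicalSpace.denseSeq C
  let St : Type := {p : (ℕ → C) × ℕ // G T W f p.1 p.2}
  have hstep : ∀ (s : St) (k : ℕ), ∃ s' : St, s.1.2 < s'.1.2 ∧
      (∀ i < s.1.2, s'.1.1 i = s.1.1 i) ∧ ∃ g ∈ Submodule.span ℝ (s'.1.1 '' {i | i < s'.1.2}),
        ‖g - D k.unpair.1‖ < 1 / ((k : ℝ) + 1) := by
    intro s k
    obtain ⟨ψ, m, h1, h2, h3, h4⟩ := step hT hfd hW hf s.2 (D k.unpair.1) (1 / ((k : ℝ) + 1))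
      (by positivity)
    exact ⟨⟨(ψ, m), h3⟩, h1, h2, h4⟩
  choose nx hnx1 hnx2 hnx3 using hstep
  let s0 : St := ⟨(fun _ => 0, 0), ⟨fun i hi => absurd hi (Nat.not_lt_zero i),
    fun i hi => absurd hi (Nat.not_lt_zero i), fun i hi => absurd hi (Nat.not_lt_zero i)⟩⟩
  let st : ℕ → St := fun k => Nat.rec s0 (fun k s => nx s k) k
  have hst : ∀ k, st (k + 1) = nx (st k) k := fun k => rfl
  have hn : ∀ k, k ≤ (st k).1.2 := by
    intro k
    induction k with
    | zero => exact Nat.zero_le _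
    | succ k ih =>
      have := hnx1 (st k) k
      rw [← hst] at this
      omega
  have hmono : ∀ k j, (st k).1.2 ≤ (st (k + j)).1.2 ∧
      ∀ i < (st k).1.2, (st (k + j)).1.1 i = (st k).1.1 i := by
    intro k j
    induction j with
    | zero => exact ⟨le_rfl, fun i _ => rfl⟩
    | succ j ih =>
      have h1 := hnx1 (st (k + j)) (k + j)
      have h2 := hnx2 (st (k + j)) (k + j)
      rw [← hst] at h1 h2
      refine ⟨by have := ih.1; show (st k).1.2 ≤ (st (k + j + 1)).1.2; omega, fun i hi => ?_⟩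
      rw [← ih.2 i hi]
      exact h2 i (lt_of_lt_of_le hi ih.1)
  let φ : ℕ → C := fun i => (st (i + 1)).1.1 i
  have hφ : ∀ k, ∀ i < (st k).1.2, φ i = (st k).1.1 i := by
    intro k i hi
    rcases le_total k (i + 1) with h | h
    · obtain ⟨j, hj⟩ := Nat.exists_eq_add_of_le h
      change (st (i + 1)).1.1 i = _
      rw [hj]
      exact (hmono k j).2 i hi
    · obtain ⟨j, hj⟩ := Nat.exists_eq_add_of_le h
      rw [hj]
      exact ((hmono (i + 1) j).2 i (lt_of_lt_of_le (Nat.lt_succ_self i) (hn (i + 1)))).symm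
  have hφ' : ∀ k, ∀ i < k, φ i = (st k).1.1 i := fun k i hi => hφ k i (lt_of_lt_of_le hi (hn k))
  refine ⟨φ, fun n => ?_, fun m n hmn => ?_, fun n => ?_, ?_⟩
  · exact (st (n + 1)).2.ne n (lt_of_lt_of_le (Nat.lt_succ_self n) (hn (n + 1)))
  · have hm : m < (st (max m n + 1)).1.2 := lt_of_lt_of_le (by omega) (hn (max m n + 1))
    have hn' : n < (st (max m n + 1)).1.2 := lt_of_lt_of_le (by omega) (hn (max m n + 1))
    rw [hφ (max m n + 1) m hm, hφ (max m n + 1) n hn']
    exact (st (max m n + 1)).2.orth m hm n hn' hmn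
  · exact (st (n + 1)).2.mem n (lt_of_lt_of_le (Nat.lt_succ_self n) (hn (n + 1)))
  · rw [Metric.dense_iff]
    intro t r hr
    obtain ⟨j, hj⟩ := (TopologicalSpace.denseRange_denseSeq C).exists_dist_lt t (half_pos hr)
    obtain ⟨N, hN⟩ := exists_nat_one_div_lt (half_pos hr)
    obtain ⟨g, hg, hgd⟩ := hnx3 (st (Nat.pair j N)) (Nat.pair j N)
    rw [← hst, Nat.unpair_pair] at *
    refine ⟨g, ?_, ?_⟩
    · rw [Metric.mem_ball, dist_comm]
      have h1 : dist (D j) g < r / 2 := by
        rw [dist_comm, dist_eq_norm]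
        refine lt_of_lt_of_le hgd (le_trans ?_ hN.le)
        apply one_div_le_one_div_of_le (by positivity)
        have : (N : ℝ) ≤ (Nat.pair j N : ℝ) := by exact_mod_cast Nat.right_le_pair j N
        linarith
      have h2 := dist_triangle t (D j) g
      have h3 : dist t (D j) < r / 2 := hj
      linarith
    · refine Submodule.span_mono ?_ hg
      rintro _ ⟨i, hi, rfl⟩
      exact ⟨i, hφ (Nat.pair j N + 1) i hi⟩

end abs

/-! ### compact metric spaces -/

section compact

variable {X : Type} [MetricSpace X] [CompactSpace X] [MeasurableSpace X]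

/-- The `n`-th Fourier coefficient of `f` with respect to the system `φ`, orthogonal in
`L²(μ)`. -/
noncomputable def coeffX (μ : Measure X) (φ : ℕ → C(X, ℝ)) (f : C(X, ℝ)) (n : ℕ) : ℝ :=
  (∫ x, f x * φ n x ∂μ) / (∫ x, φ n x ^ 2 ∂μ)

/-- `φ` is a system of nonzero continuous functions, orthogonal in `L²(μ)`, whose linear span is
dense in the space of continuous functions with the maximum norm. -/
structure ClosedOrthogonal (μ : Measure X) (φ : ℕ → C(X, ℝ)) : Prop where
  ne : ∀ n, φ n ≠ 0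
  orth : ∀ m n, m ≠ n → ∫ x, φ m x * φ n x ∂μ = 0
  closed : Dense (Submodule.span ℝ (range φ) : Set C(X, ℝ))

variable [BorelSpace X] (μ : Measure X) [IsFiniteMeasure μ]

theorem inner_T (f g : C(X, ℝ)) : inner ℝ (ContinuousMap.toLp 2 μ ℝ f)
    (ContinuousMap.toLp 2 μ ℝ g) = ∫ x, f x * g x ∂μ := by
  rw [ContinuousMap.inner_toLp]
  refine integral_congr_ae (Filter.Eventually.of_forall fun x => ?_)
  simp [mul_comm]

theorem coeffX_eq (φ : ℕ → C(X, ℝ)) (f : C(X, ℝ)) (n : ℕ) : coeffX μ φ f n =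
    inner ℝ (ContinuousMap.toLp 2 μ ℝ f) (ContinuousMap.toLp 2 μ ℝ (φ n)) /
      inner ℝ (ContinuousMap.toLp 2 μ ℝ (φ n)) (ContinuousMap.toLp 2 μ ℝ (φ n)) := by
  unfold coeffX
  rw [inner_T, inner_T]
  simp only [pow_two]

/-- the general existence theorem -/
theorem exists_system [μ.IsOpenPosMeasure] (W : Submodule ℝ C(X, ℝ)) (f : C(X, ℝ))
    (hW : ∀ ε : ℝ, 0 < ε → ∃ w ∈ W, ∫ x, (f x - w x) ^ 2 ∂μ < ε) (hf : f ∉ W) :
    ∃ φ : ℕ → C(X, ℝ), ClosedOrthogonal μ φ ∧ ∀ n, coeffX μ φ f n • φ n ∈ W := by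
  let T : C(X, ℝ) →L[ℝ] Lp ℝ 2 μ := ContinuousMap.toLp 2 μ ℝ
  have hT : Function.Injective T := ContinuousMap.toLp_injective μ
  have hdense : T f ∈ closure (T '' (W : Set C(X, ℝ))) := by
    rw [Metric.mem_closure_iff]
    intro ε hε
    obtain ⟨w, hw, hwε⟩ := hW (ε ^ 2) (by positivity)
    refine ⟨T w, ⟨w, hw, rfl⟩, ?_⟩
    rw [dist_eq_norm, ← map_sub]
    have h2 : ‖T (f - w)‖ ^ 2 = ∫ x, (f x - w x) ^ 2 ∂μ := by
      rw [← real_inner_self_eq_norm_sq, inner_T]
      simp only [ContinuousMap.sub_apply, pow_two]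
    rw [← h2] at hwε
    exact lt_of_pow_lt_pow_left₀ 2 hε.le hwε
  obtain ⟨φ, h1, h2, h3, h4⟩ := main_abs hT hdense hf
  refine ⟨φ, ⟨h1, fun m n hmn => ?_, h4⟩, fun n => ?_⟩
  · rw [← inner_T]
    exact h2 m n hmn
  · rw [coeffX_eq]
    exact h3 n

/-- the functions vanishing on `Z` -/
def van (Z : Set X) : Submodule ℝ C(X, ℝ) where
  carrier := {g | ∀ z ∈ Z, g z = 0}
  add_mem' := fun {a b} ha hb z hz => by
    rw [ContinuousMap.add_apply, ha z hz, hb z hz, add_zero]
  zero_mem' := fun z _ => rfl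
  smul_mem' := fun c a ha z hz => by
    rw [ContinuousMap.smul_apply, ha z hz, smul_zero]

/-- approximation by functions vanishing on a closed set -/
theorem van_dense {Z : Set X} (hZ : IsClosed Z) (hZn : Z.Nonempty) (g : C(X, ℝ))
    (hZ0 : μ {x | x ∈ Z ∧ g x ≠ 0} = 0) (ε : ℝ) (hε : 0 < ε) :
    ∃ w ∈ van Z, ∫ x, (g x - w x) ^ 2 ∂μ < ε := by
  let h : ℕ → C(X, ℝ) := fun n => ⟨fun x => min 1 ((n : ℝ) * Metric.infDist x Z), by
    have := Metric.continuous_infDist_pt Z
    fun_prop⟩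
  have hh : ∀ n x, h n x = min 1 ((n : ℝ) * Metric.infDist x Z) := fun n x => rfl
  have hlim : Tendsto (fun n : ℕ => ∫ x, (g x - (g * h n) x) ^ 2 ∂μ) atTop (𝓝 0) := by
    have h1 : (0 : ℝ) = ∫ x, (0 : X → ℝ) x ∂μ := by simp
    rw [h1]
    refine tendsto_integral_of_dominated_convergence (fun _ => ‖g‖ ^ 2) (fun n => ?_)
      (integrable_const _) (fun n => ?_) ?_
    · exact (((map_continuous g).sub (map_continuous (g * h n))).pow 2).aestronglyMeasurable
    · refine Filter.Eventually.of_forall fun x => ?_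
      have h2 : g x - (g * h n) x = g x * (1 - h n x) := by
        rw [ContinuousMap.mul_apply]; ring
      rw [h2, Real.norm_eq_abs, abs_pow, abs_mul]
      have h3 : |g x| ≤ ‖g‖ := by
        rw [← Real.norm_eq_abs]; exact g.norm_coe_le_norm x
      have h4 : |1 - h n x| ≤ 1 := by
        rw [hh, abs_le]
        have h5 : 0 ≤ (n : ℝ) * Metric.infDist x Z :=
          mul_nonneg (Nat.cast_nonneg n) Metric.infDist_nonneg
        have h6 : 0 ≤ min 1 ((n : ℝ) * Metric.infDist x Z) := le_min zero_le_one h5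
        have h7 := min_le_left 1 ((n : ℝ) * Metric.infDist x Z)
        constructor <;> linarith
      have h8 : |g x| * |1 - h n x| ≤ ‖g‖ * 1 :=
        mul_le_mul h3 h4 (abs_nonneg _) (norm_nonneg _)
      rw [mul_one] at h8
      exact pow_le_pow_left₀ (mul_nonneg (abs_nonneg _) (abs_nonneg _)) h8 2
    · have h2 : ∀ᵐ x ∂μ, x ∉ {x | x ∈ Z ∧ g x ≠ 0} := measure_eq_zero_iff_ae_notMem.1 hZ0
      filter_upwards [h2] with x hx'
      by_cases hx : x ∈ Z
      · have hgx : g x = 0 := by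
          by_contra h0
          exact hx' ⟨hx, h0⟩
        simp only [ContinuousMap.mul_apply, hgx, zero_mul, sub_self, Pi.zero_apply]
        rw [zero_pow two_ne_zero]
        exact tendsto_const_nhds
      have h3 : 0 < Metric.infDist x Z :=
        (hZ.notMem_iff_infDist_pos hZn).1 hx
      have h4 : Tendsto (fun n : ℕ => (n : ℝ) * Metric.infDist x Z) atTop atTop :=
        tendsto_natCast_atTop_atTop.atTop_mul_const h3
      have h5 : ∀ᶠ n : ℕ in atTop, (g x - (g * h n) x) ^ 2 = 0 := by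
        filter_upwards [h4.eventually_ge_atTop 1] with n hn
        rw [ContinuousMap.mul_apply, hh, min_eq_left hn, mul_one, sub_self, zero_pow two_ne_zero]
      rw [Pi.zero_apply]
      exact tendsto_const_nhds.congr' (h5.mono fun n hn => hn.symm)
  obtain ⟨n, hn⟩ := (hlim.eventually_lt_const hε).exists
  refine ⟨g * h n, fun z hz => ?_, hn⟩
  rw [ContinuousMap.mul_apply, hh, Metric.infDist_zero_of_mem hz, mul_zero, min_eq_right zero_le_one,
    mul_zero]

/-- every element of the span is a combination of the first functions -/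
theorem span_fin {C : Type} [AddCommGroup C] [Module ℝ C] (φ : ℕ → C) (g : C)
    (hg : g ∈ Submodule.span ℝ (range φ)) : ∃ N, g ∈ Submodule.span ℝ (φ '' {i | i < N}) := by
  have hmono : ∀ N N' : ℕ, N ≤ N' → Submodule.span ℝ (φ '' {i | i < N}) ≤
      Submodule.span ℝ (φ '' {i | i < N'}) := by
    intro N N' h
    exact Submodule.span_mono (image_mono fun i hi => lt_of_lt_of_le hi h)
  induction hg using Submodule.span_induction with
  | mem x hx =>
    obtain ⟨i, rfl⟩ := hx
    exact ⟨i + 1, Submodule.subset_span ⟨i, Nat.lt_succ_self i, rfl⟩⟩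
  | zero => exact ⟨0, Submodule.zero_mem _⟩
  | add x y _ _ hx hy =>
    obtain ⟨N, hN⟩ := hx
    obtain ⟨N', hN'⟩ := hy
    exact ⟨max N N', Submodule.add_mem _ (hmono _ _ (le_max_left _ _) hN)
      (hmono _ _ (le_max_right _ _) hN')⟩
  | smul a x _ hx =>
    obtain ⟨N, hN⟩ := hx
    exact ⟨N, Submodule.smul_mem _ _ hN⟩

/-- mean square convergence of the expansions in a closed system -/
theorem approx [μ.IsOpenPosMeasure] (φ : ℕ → C(X, ℝ)) (hφ : ClosedOrthogonal μ φ)
    (f : C(X, ℝ)) (ε : ℝ) (hε : 0 < ε) :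
    ∃ N, ∫ x, (f x - (∑ n ∈ Finset.range N, coeffX μ φ f n • φ n) x) ^ 2 ∂μ ≤
      ε ^ 2 * μ.real univ := by
  let T : C(X, ℝ) →L[ℝ] Lp ℝ 2 μ := ContinuousMap.toLp 2 μ ℝ
  have hT : Function.Injective T := ContinuousMap.toLp_injective μ
  have hG : ∀ n, G T ⊤ f φ n := fun n => ⟨fun i _ => hφ.ne i,
    fun i _ j _ hij => by rw [inner_T]; exact hφ.orth i j hij, fun i _ => trivial⟩
  have hnn : ∀ g : C(X, ℝ), ‖T g‖ ^ 2 = ∫ x, g x ^ 2 ∂μ := by
    intro g
    rw [← real_inner_self_eq_norm_sq, inner_T]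
    simp only [pow_two]
  have hint : ∀ g : C(X, ℝ), Integrable (fun x => g x ^ 2) μ := by
    intro g
    exact ((map_continuous g).pow 2).integrable_of_hasCompactSupport
      (HasCompactSupport.of_compactSpace _)
  obtain ⟨g, hgε, hg⟩ := Metric.dense_iff.1 hφ.closed f ε hε
  obtain ⟨N, hN⟩ := span_fin φ g hg
  refine ⟨N, ?_⟩
  have hps : ∑ n ∈ Finset.range N, coeffX μ φ f n • φ n = ps T φ f N := by
    unfold ps
    exact Finset.sum_congr rfl fun n _ => by rw [coeffX_eq]
  rw [hps]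
  have h1 : ∀ y ∈ Submodule.span ℝ (φ '' {i | i < N}),
      inner ℝ (T (f - ps T φ f N)) (T y) = 0 := by
    intro y hy
    induction hy using Submodule.span_induction with
    | mem x hx =>
      obtain ⟨i, hi, rfl⟩ := hx
      exact ps_orth hT (hG N) f i hi
    | zero => rw [map_zero, inner_zero_right]
    | add x y _ _ hx hy => rw [map_add, inner_add_right, hx, hy, add_zero]
    | smul a x _ hx => rw [map_smul, real_inner_smul_right, hx, mul_zero]
  have h2 : ps T φ f N - g ∈ Submodule.span ℝ (φ '' {i | i < N}) := by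
    refine Submodule.sub_mem _ ?_ hN
    unfold ps
    exact Submodule.sum_mem _ fun i hi => Submodule.smul_mem _ _
      (Submodule.subset_span ⟨i, Finset.mem_range.1 hi, rfl⟩)
  have h3 : ‖T (f - ps T φ f N)‖ ^ 2 ≤ ‖T (f - g)‖ ^ 2 := by
    have h4 : T (f - g) = T (f - ps T φ f N) + T (ps T φ f N - g) := by
      rw [← map_add]
      congr 1
      abel
    rw [h4, pow_two, pow_two, norm_add_sq_eq_norm_sq_add_norm_sq_real (h1 _ h2)]
    have := mul_self_nonneg ‖T (ps T φ f N - g)‖
    linarith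
  have h7 : ∫ x, (f - g) x ^ 2 ∂μ ≤ ε ^ 2 * μ.real univ := by
    have h8 : ∫ x, (f - g) x ^ 2 ∂μ ≤ ∫ x, ε ^ 2 ∂μ := by
      refine integral_mono (hint _) (integrable_const _) fun x => ?_
      have h9 : |(f - g) x| ≤ ε := by
        rw [← Real.norm_eq_abs]
        refine ((f - g).norm_coe_le_norm x).trans ?_
        rw [← dist_eq_norm, dist_comm]
        exact (Metric.mem_ball.1 hgε).le
      rw [← sq_abs]
      exact pow_le_pow_left₀ (abs_nonneg _) h9 2
    rw [integral_const, smul_eq_mul, mul_comm] at h8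
    exact h8
  rw [hnn, hnn] at h3
  exact le_trans h3 h7

/-- if all terms of the expansion are in `W` then the function is in the mean square closure of
`W` -/
theorem conv [μ.IsOpenPosMeasure] (φ : ℕ → C(X, ℝ)) (hφ : ClosedOrthogonal μ φ)
    (W : Submodule ℝ C(X, ℝ)) (f : C(X, ℝ)) (h : ∀ n, coeffX μ φ f n • φ n ∈ W) (ε : ℝ)
    (hε : 0 < ε) : ∃ w ∈ W, ∫ x, (f x - w x) ^ 2 ∂μ < ε := by
  have h1 : 0 < ε / (μ.real univ + 1) := by
    have : 0 ≤ μ.real univ := measureReal_nonneg
    positivity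
  obtain ⟨N, hN⟩ := approx μ φ hφ f (Real.sqrt (ε / (μ.real univ + 1))) (Real.sqrt_pos.2 h1)
  refine ⟨∑ n ∈ Finset.range N, coeffX μ φ f n • φ n, W.sum_mem fun n _ => h n,
    lt_of_le_of_lt hN ?_⟩
  rw [Real.sq_sqrt h1.le]
  have h2 : 0 ≤ μ.real univ := measureReal_nonneg
  have h3 : 0 < μ.real univ + 1 := by positivity
  rw [div_mul_eq_mul_div, div_lt_iff₀ h3]
  nlinarith

/-- if all terms of the expansion vanish on `Z` then the function vanishes almost everywhere
on `Z` -/
theorem sharp [μ.IsOpenPosMeasure] (φ : ℕ → C(X, ℝ)) (hφ : ClosedOrthogonal μ φ)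
    (f : C(X, ℝ)) (Z : Set X) (hZ : IsClosed Z)
    (h : ∀ n, ∀ z ∈ Z, coeffX μ φ f n * φ n z = 0) : μ {x | x ∈ Z ∧ f x ≠ 0} = 0 := by
  have hint : ∀ g : C(X, ℝ), Integrable (fun x => g x ^ 2) μ := by
    intro g
    exact ((map_continuous g).pow 2).integrable_of_hasCompactSupport
      (HasCompactSupport.of_compactSpace _)
  have key : ∀ ε : ℝ, 0 < ε → ∫ x in Z, f x ^ 2 ∂μ ≤ ε := by
    intro ε hε
    obtain ⟨w, hw, hwε⟩ := conv μ φ hφ (van Z) f (fun n z hz => h n z hz) ε hε
    have h5 : ∫ x in Z, f x ^ 2 ∂μ = ∫ x in Z, (f - w) x ^ 2 ∂μ := by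
      refine setIntegral_congr_fun hZ.measurableSet fun x hx => ?_
      simp only [ContinuousMap.sub_apply, hw x hx, sub_zero]
    have h6 : ∫ x in Z, (f - w) x ^ 2 ∂μ ≤ ∫ x, (f - w) x ^ 2 ∂μ :=
      setIntegral_le_integral (hint _) (Filter.Eventually.of_forall fun x => sq_nonneg _)
    have h7 : ∫ x, (f - w) x ^ 2 ∂μ = ∫ x, (f x - w x) ^ 2 ∂μ := rfl
    linarith
  have hzero : ∫ x in Z, f x ^ 2 ∂μ = 0 := by
    apply le_antisymm
    · exact le_of_forall_pos_le_add fun ε hε => by rw [zero_add]; exact key ε hε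
    · exact integral_nonneg fun x => sq_nonneg _
  rw [integral_eq_zero_iff_of_nonneg (fun x => sq_nonneg _) (hint f).integrableOn] at hzero
  have h1 : ∀ᵐ x ∂μ, x ∈ Z → f x ^ 2 = 0 := (ae_restrict_iff' hZ.measurableSet).1 hzero
  refine measure_mono_null ?_ (ae_iff.1 h1)
  rintro x ⟨hx, hfx⟩ h2
  exact hfx (pow_eq_zero_iff two_ne_zero |>.1 (h2 hx))

end compact

/-! ### the unit interval -/

/-- The n-th Fourier coefficient of f with respect to the orthogonal system φ on [0,1]:
the integral of f * φ n divided by the integral of φ n squared. -/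
noncomputable def coeff (φ : ℕ → ℝ → ℝ) (f : ℝ → ℝ) (n : ℕ) : ℝ :=
  (∫ t in (0:ℝ)..1, f t * φ n t) / (∫ t in (0:ℝ)..1, φ n t ^ 2)

/-- The partial sum of the expansion of f, using the first N + 1 functions φ 0, ..., φ N
(so that N = 0, 1, 2, ... runs over all nonempty partial sums). -/
noncomputable def partialSum (φ : ℕ → ℝ → ℝ) (f : ℝ → ℝ) (N : ℕ) (t : ℝ) : ℝ :=
  ∑ n ∈ Finset.range (N + 1), coeff φ f n * φ n t

/-- The expansion of f in the system φ is uniformly summable to f on [0,1] by the linear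
summation method given by the real matrix c: for each row m the series over N of
c m N * (N-th partial sum) converges uniformly on [0,1] to a function σ m, and σ m tends to f
uniformly on [0,1] as m tends to infinity. -/
def UniformlySummable (φ : ℕ → ℝ → ℝ) (c : ℕ → ℕ → ℝ) (f : ℝ → ℝ) : Prop :=
  ∃ σ : ℕ → ℝ → ℝ,
    (∀ m, TendstoUniformlyOn
      (fun (K : ℕ) (t : ℝ) => ∑ N ∈ Finset.range K, c m N * partialSum φ f N t)
      (σ m) atTop (Icc (0:ℝ) 1)) ∧
    TendstoUniformlyOn σ f atTop (Icc (0:ℝ) 1)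

theorem openPos_I : (volume : Measure unitInterval).IsOpenPosMeasure := by
  refine ⟨fun U hU hne => ?_⟩
  obtain ⟨V, hV, rfl⟩ := isOpen_induced_iff.1 hU
  obtain ⟨x, hx⟩ := hne
  have h1 : (x : ℝ) ∈ closure (Ioo (0 : ℝ) 1) := by
    rw [closure_Ioo zero_ne_one]
    exact x.2
  have h2 : (V ∩ Ioo (0 : ℝ) 1).Nonempty := mem_closure_iff.1 h1 V hV hx
  have h3 : 0 < volume (V ∩ Ioo (0 : ℝ) 1) := (hV.inter isOpen_Ioo).measure_pos _ h2
  rw [unitInterval.volume_apply]
  refine (lt_of_lt_of_le h3 (measure_mono ?_)).ne'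
  rintro y ⟨hy, hy'⟩
  exact ⟨⟨y, hy'.1.le, hy'.2.le⟩, hy, rfl⟩

theorem int_I (F : ℝ → ℝ) : ∫ t in (0:ℝ)..1, F t = ∫ x : unitInterval, F x := by
  rw [intervalIntegral.integral_of_le zero_le_one, ← integral_Icc_eq_integral_Ioc,
    ← integral_subtype_comap measurableSet_Icc]
  rfl

theorem interval (Z : Set ℝ) (hZ : Z ⊆ Icc 0 1) (hZc : IsClosed Z) (f : ℝ → ℝ)
    (hf : ContinuousOn f (Icc 0 1)) (hZ0 : volume {z | z ∈ Z ∧ f z ≠ 0} = 0)
    (hfz : ∃ z ∈ Z, f z ≠ 0) :
    ∃ φ : ℕ → ℝ → ℝ,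
      (∀ n, ContinuousOn (φ n) (Icc (0:ℝ) 1)) ∧
      (∀ n, ∃ t ∈ Icc (0:ℝ) 1, φ n t ≠ 0) ∧
      (∀ m n : ℕ, m ≠ n → ∫ t in (0:ℝ)..1, φ m t * φ n t = 0) ∧
      (∀ g : ℝ → ℝ, ContinuousOn g (Icc (0:ℝ) 1) → ∀ ε : ℝ, ε > 0 →
        ∃ s : Finset ℕ, ∃ a : ℕ → ℝ,
          ∀ t ∈ Icc (0:ℝ) 1, |g t - ∑ i ∈ s, a i * φ i t| < ε) ∧
      (∀ n, ∀ z ∈ Z, coeff φ f n * φ n z = 0) ∧
      ∀ c : ℕ → ℕ → ℝ, ¬ UniformlySummable φ c f := by
  have := openPos_I
  let F : C(unitInterval, ℝ) := ⟨fun x => f x, continuousOn_iff_continuous_domRestrict.1 hf⟩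
  let Z' : Set unitInterval := Subtype.val ⁻¹' Z
  have hZ' : IsClosed Z' := hZc.preimage continuous_subtype_val
  have hZ'0 : volume {x : unitInterval | x ∈ Z' ∧ F x ≠ 0} = 0 := by
    rw [unitInterval.volume_apply]
    refine measure_mono_null ?_ hZ0
    rintro _ ⟨x, hx, rfl⟩
    exact hx
  obtain ⟨z0, hz0, hfz0⟩ := hfz
  have hFW : F ∉ van Z' := fun h => hfz0 (h ⟨z0, hZ hz0⟩ hz0)
  obtain ⟨φ, hφ, hφW⟩ := exists_system volume (van Z') F
    (fun ε hε => van_dense volume hZ' ⟨⟨z0, hZ hz0⟩, hz0⟩ F hZ'0 ε hε) hFW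
  let φ' : ℕ → ℝ → ℝ := fun n t => φ n (projIcc 0 1 zero_le_one t)
  have hφ' : ∀ n (x : unitInterval), φ' n x = φ n x := by
    intro n x
    change φ n (projIcc 0 1 zero_le_one x) = φ n x
    rw [projIcc_val]
  have hφ'' : ∀ n t (ht : t ∈ Icc (0:ℝ) 1), φ' n t = φ n ⟨t, ht⟩ := fun n t ht => hφ' n ⟨t, ht⟩
  have hcoeff : ∀ n, coeff φ' f n = coeffX volume φ F n := by
    intro n
    unfold coeff coeffX
    rw [int_I, int_I]
    simp only [hφ']
    rfl
  have hterm : ∀ n, ∀ z ∈ Z, coeff φ' f n * φ' n z = 0 := by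
    intro n z hz
    rw [hcoeff, hφ'' n z (hZ hz)]
    exact hφW n ⟨z, hZ hz⟩ hz
  refine ⟨φ', fun n => ?_, fun n => ?_, fun m n hmn => ?_, fun g hg ε hε => ?_, hterm, ?_⟩
  · exact ((map_continuous (φ n)).comp continuous_projIcc).continuousOn
  · by_contra hcon
    push Not at hcon
    apply hφ.ne n
    ext x
    rw [← hφ']
    exact hcon x x.2
  · rw [int_I]
    simp only [hφ']
    exact hφ.orth m n hmn
  · let g' : C(unitInterval, ℝ) := ⟨fun x => g x, continuousOn_iff_continuous_domRestrict.1 hg⟩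
    obtain ⟨h, hh, hhs⟩ := Metric.dense_iff.1 hφ.closed g' ε hε
    obtain ⟨c, hc⟩ := Finsupp.mem_span_range_iff_exists_finsupp.1 hhs
    refine ⟨c.support, c, fun t ht => ?_⟩
    have h1 : ∑ i ∈ c.support, c i * φ' i t = h ⟨t, ht⟩ := by
      rw [← hc, Finsupp.sum, ContinuousMap.sum_apply]
      refine Finset.sum_congr rfl fun i _ => ?_
      rw [ContinuousMap.smul_apply, smul_eq_mul, hφ'' i t ht]
    rw [h1]
    have h2 : dist (g' ⟨t, ht⟩) (h ⟨t, ht⟩) ≤ dist g' h := ContinuousMap.dist_apply_le_dist _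
    rw [Real.dist_eq] at h2
    refine lt_of_le_of_lt h2 ?_
    rw [dist_comm]
    exact Metric.mem_ball.1 hh
  · rintro c ⟨σ, h1, h2⟩
    have h01 := hZ hz0
    have hps : ∀ N, partialSum φ' f N z0 = 0 := fun N =>
      Finset.sum_eq_zero fun n _ => hterm n z0 hz0
    have hσ : ∀ m, σ m z0 = 0 := by
      intro m
      have h3 := (h1 m).tendsto_at h01
      simp only [hps, mul_zero, Finset.sum_const_zero] at h3
      exact tendsto_nhds_unique h3 tendsto_const_nhds
    have h4 := h2.tendsto_at h01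
    simp only [hσ] at h4
    exact hfz0 (tendsto_nhds_unique h4 tendsto_const_nhds)

/-- **Main theorem.**

Part 1 (compact metric space `X`, finite Borel measure `μ` charging all nonempty open sets).
(a) Let `W` be a linear subspace of `C(X)` and let `f` be a continuous function which is not in
`W`. There is an orthogonal system of continuous functions, closed in `C(X)`, such that all terms
of the expansion of `f` are in `W` if and only if `f` is a mean square limit of elements of `W`.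
(b) Let `Z` be a closed set and let `f` be a continuous function which is not identically zero on
`Z`. There is an orthogonal system of continuous functions, closed in `C(X)`, such that all terms
of the expansion of `f` vanish on `Z` if and only if `f = 0` almost everywhere on `Z`.

Part 2 (unit interval, Lebesgue measure). For every closed `Z ⊆ [0,1]` and every continuous `f`
which vanishes almost everywhere but not everywhere on `Z` there is an orthogonal system of
continuous functions on `[0,1]`, closed in `C`, such that all terms of the expansion of `f` vanish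
on `Z`; hence the expansion of `f` is not uniformly summable to `f` by any matrix. -/
theorem result :
    (∀ (X : Type) [MetricSpace X] [CompactSpace X] [MeasurableSpace X] [BorelSpace X]
      (μ : Measure X) [IsFiniteMeasure μ] [μ.IsOpenPosMeasure],
      (∀ (W : Submodule ℝ C(X, ℝ)) (f : C(X, ℝ)), f ∉ W →
        ((∃ φ : ℕ → C(X, ℝ), ClosedOrthogonal μ φ ∧ ∀ n, coeffX μ φ f n • φ n ∈ W) ↔
          ∀ ε : ℝ, 0 < ε → ∃ w ∈ W, ∫ x, (f x - w x) ^ 2 ∂μ < ε)) ∧
      (∀ Z : Set X, IsClosed Z → ∀ f : C(X, ℝ), (∃ z ∈ Z, f z ≠ 0) →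
        ((∃ φ : ℕ → C(X, ℝ), ClosedOrthogonal μ φ ∧
            ∀ n, ∀ z ∈ Z, coeffX μ φ f n * φ n z = 0) ↔
          μ {x | x ∈ Z ∧ f x ≠ 0} = 0))) ∧
    ∀ Z : Set ℝ, Z ⊆ Icc 0 1 → IsClosed Z →
      ∀ f : ℝ → ℝ, ContinuousOn f (Icc 0 1) → volume {z | z ∈ Z ∧ f z ≠ 0} = 0 →
      (∃ z ∈ Z, f z ≠ 0) →
      ∃ φ : ℕ → ℝ → ℝ,
        (∀ n, ContinuousOn (φ n) (Icc (0:ℝ) 1)) ∧
        (∀ n, ∃ t ∈ Icc (0:ℝ) 1, φ n t ≠ 0) ∧
        (∀ m n : ℕ, m ≠ n → ∫ t in (0:ℝ)..1, φ m t * φ n t = 0) ∧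
        (∀ g : ℝ → ℝ, ContinuousOn g (Icc (0:ℝ) 1) → ∀ ε : ℝ, ε > 0 →
          ∃ s : Finset ℕ, ∃ a : ℕ → ℝ,
            ∀ t ∈ Icc (0:ℝ) 1, |g t - ∑ i ∈ s, a i * φ i t| < ε) ∧
        (∀ n, ∀ z ∈ Z, coeff φ f n * φ n z = 0) ∧
        ∀ c : ℕ → ℕ → ℝ, ¬ UniformlySummable φ c f := by
  refine ⟨?_, interval⟩
  intro X _ _ _ _ μ _ _
  refine ⟨fun W f hf => ⟨fun ⟨φ, hφ, h⟩ ε hε => conv μ φ hφ W f h ε hε,
    fun hW => exists_system μ W f hW hf⟩,
    fun Z hZ f hfz => ⟨fun ⟨φ, hφ, h⟩ => sharp μ φ hφ f Z hZ h, fun hZ0 => ?_⟩⟩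
  obtain ⟨z, hz, hfz⟩ := hfz
  obtain ⟨φ, hφ, h⟩ := exists_system μ (van Z) f
    (fun ε hε => van_dense μ hZ ⟨z, hz⟩ f hZ0 ε hε) (fun h => hfz (h z hz))
  exact ⟨φ, hφ, fun n z hz => h n z hz⟩

end Pool.Agent.Results.MP_ae49d3_an.PrescribedFunction
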